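import Pool.Agent.X261.ZH.Base

/-!
# Zariski dense orbits for products of maps of pairwise different degrees

Let `f_1, ..., f_N` be self-maps of the projective line over a number field `L`, of pairwise different
degrees at least `2`; they may be post-critically finite, Lattès maps, monomials, anything. Then EVERY
point of `(P^1)^N` over `L` none of whose coordinates is preperiodic has a Zariski dense orbit, and
even: a proper closed subset contains only finitely many points of the orbit.
-/

set_option autoImplicit false

namespace Pool.Agent.Results.MP_3db4db_nt.DistinctDegrees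

open Polynomial Filter

/-- the self-map of the projective line `K ∪ {∞}` given by `p / q`, a map of degree `d` when `p`, `q`
are coprime and `d` is the larger one of their degrees (`none` is `∞`) -/
noncomputable def P1map {K : Type*} [Field K] (p q : K[X]) (d : ℕ) : Option K → Option K
  | some x => by classical exact if q.eval x = 0 then none else some (p.eval x / q.eval x)
  | none => by classical exact if q.coeff d = 0 then none else some (p.coeff d / q.coeff d)

/-- the orbit of `z` is infinite, that is `z` is not preperiodic -/
def InfiniteOrbit {α : Type*} (f : α → α) (z : α) : Prop := (Set.range fun n : ℕ => f^[n] z).Infinite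

lemma P1map_iterate {K : Type*} [Field K] (P Q : K[X]) (D : ℕ) (α : K)
    (h : ∀ n, Q.eval ((fun x => P.eval x / Q.eval x)^[n] α) ≠ 0) (n : ℕ) :
    (P1map P Q D)^[n] (some α) = some ((fun x => P.eval x / Q.eval x)^[n] α) := by
  induction n with
  | zero => rfl
  | succ n ih =>
    rw [Function.iterate_succ_apply', Function.iterate_succ_apply', ih]
    exact if_neg (h n)

/-- **Theorem.** Let `L` be a number field, `M` an extension of `L` (for example the algebraic
numbers), and `f_i = p_i / q_i` (`i < N`) self-maps of the projective line over `L` of pairwise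
different degrees `d_i ≥ 2`. Then there are points `z_i` with infinite orbits, and for all such `z_i`:
if `F` is a nonzero polynomial in `N` variables over `M`, then for all but finitely many `n` the point
`(f_1^n (z_1), ..., f_N^n (z_N))` has finite coordinates and is not a zero of `F`. In particular the
orbit of `(z_1, ..., z_N)` is Zariski dense. -/
theorem result {L : Type*} [Field L] [NumberField L] {M : Type*} [Field M] [Algebra L M]
    (N : ℕ) (d : Fin N → ℕ) (hd : ∀ i, 2 ≤ d i) (hinj : Function.Injective d)
    (p q : Fin N → L[X]) (hc : ∀ i, IsCoprime (p i) (q i))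
    (hmax : ∀ i, max (p i).natDegree (q i).natDegree = d i) :
    (∃ z : Fin N → Option L, ∀ i, InfiniteOrbit (P1map (p i) (q i) (d i)) (z i)) ∧
    ∀ z : Fin N → Option L, (∀ i, InfiniteOrbit (P1map (p i) (q i) (d i)) (z i)) →
      ∀ F : MvPolynomial (Fin N) M, F ≠ 0 → ∀ᶠ n in atTop, ∃ x : Fin N → L,
        (∀ i, (P1map (p i) (q i) (d i))^[n] (z i) = some (x i)) ∧
        MvPolynomial.eval (fun i => algebraMap L M (x i)) F ≠ 0 := by
  choose B hB using fun i => Pool.Agent.X261.ZH.orbit_height (hd i) (hc i) (hmax i)
  constructor
  · have h1 : ∀ i, ∃ α : L, B i < Height.logHeight₁ α := by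
      intro i
      by_contra hcon
      push Not at hcon
      have h2 := NumberField.finite_setOfPred_logHeight₁_le (K := L) (B i)
      exact Set.infinite_univ (h2.subset fun x _ => hcon x)
    choose α hα using h1
    refine ⟨fun i => some (α i), fun i => ?_⟩
    obtain ⟨h3, -, h4, -⟩ := hB i (α i) (hα i)
    refine Set.infinite_range_of_injective fun m n hmn => ?_
    simp only [P1map_iterate _ _ _ _ h3, Option.some_inj] at hmn
    exact h4.injective (congrArg Height.logHeight₁ hmn)
  · intro z hz F hF
    obtain ⟨F', hF', hFF⟩ := Pool.Agent.X261.ZH.descend (L := L) F hF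
    have h1 : ∀ i, ∃ (n : ℕ) (y : L), (P1map (p i) (q i) (d i))^[n] (z i) = some y ∧
        B i < Height.logHeight₁ y := by
      intro i
      by_contra hcon
      push Not at hcon
      have h2 := NumberField.finite_setOfPred_logHeight₁_le (K := L) (B i)
      refine hz i (((h2.image some).insert none).subset ?_)
      rintro _ ⟨n, rfl⟩
      rcases h : (P1map (p i) (q i) (d i))^[n] (z i) with _ | y
      · exact Or.inl h
      · exact Or.inr ⟨y, hcon n y h, h.symm⟩
    choose m y hm hy using h1
    obtain ⟨n0, hn0⟩ : ∃ n0, n0 = ∑ i, m i := ⟨_, rfl⟩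
    have hmn : ∀ i, m i ≤ n0 := fun i =>
      hn0 ▸ Finset.single_le_sum (fun _ _ => Nat.zero_le _) (Finset.mem_univ i)
    have h3 : ∀ i, ∃ α : L, (P1map (p i) (q i) (d i))^[n0] (z i) = some α ∧
        B i < Height.logHeight₁ α := by
      intro i
      obtain ⟨h4, h5, -, -⟩ := hB i (y i) (hy i)
      refine ⟨_, ?_, h5 (n0 - m i)⟩
      rw [← P1map_iterate _ _ (d i) _ h4, ← hm i, ← Function.iterate_add_apply,
        Nat.sub_add_cancel (hmn i)]
    choose α hα1 hα2 using h3
    choose h6 _ _ G hG hlim using fun i => hB i (α i) (hα2 i)
    have h7 := Pool.Agent.X261.ZH.eventually_ne' N d hd hinj G hG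
      (fun n i => (fun x => (p i).eval x / (q i).eval x)^[n] (α i)) hlim F' hF'
    filter_upwards [(tendsto_sub_atTop_nat n0).eventually h7, eventually_ge_atTop n0] with n hn hge
    refine ⟨fun i => (fun x => (p i).eval x / (q i).eval x)^[n - n0] (α i), fun i => ?_,
      fun h8 => hn (hFF _ h8)⟩
    rw [← P1map_iterate _ _ (d i) _ (h6 i), ← hα1 i, ← Function.iterate_add_apply,
      Nat.sub_add_cancel hge]

end Pool.Agent.Results.MP_3db4db_nt.DistinctDegrees
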